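import Mathlib
import Pool.Agent.MP_9eaa6a_an.Defs
import Pool.Agent.MP_9eaa6a_an.Mg.Transitive

set_option autoImplicit false

open MeasureTheory Filter Topology
open Pool.Agent.MP_9eaa6a_an

namespace Pool.Agent.Results.MP_9eaa6a_an.NotStablyErgodic

/-- There is a smooth, transitive, non-uniformly hyperbolic, area preserving endomorphism `f` of
the two-torus which is a `C¹` limit of smooth non-ergodic area preserving endomorphisms. -/
theorem result : ∃ (f : Torus → Torus) (F : ℝ × ℝ → ℝ × ℝ),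
    IsSmoothEndo f F ∧ IsTransitive f ∧ IsNUH F ∧
    ∀ ε : ℝ, 0 < ε → ∃ (g : Torus → Torus) (G : ℝ × ℝ → ℝ × ℝ), IsSmoothEndo g G ∧
      (∀ p, euclid (G p - F p) < ε ∧ opNorm (fderiv ℝ G p - fderiv ℝ F p) < ε) ∧
      ¬ Ergodic g (volume : Measure Torus) := by
  have hE : ∀ t, IsSmoothEndo (fm t) (Fm t) := fun t =>
    ⟨fun p => (fm_proj t p).symm, contDiff_Fm t, det_fderiv_Fm t, not_injective_fm t,
      measurePreserving_fm t⟩
  refine ⟨fm 0, Fm 0, hE 0, isTransitive_fm, isNUH_Fm, fun ε hε => ?_⟩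
  have h1 : ∀ᶠ t in 𝓝[>] (0 : ℝ), t ∈ Set.Ioo (0 : ℝ) 1 := Ioo_mem_nhdsGT one_pos
  obtain ⟨t, ht, ht'⟩ := (h1.and (nhdsWithin_le_nhds (eventually_close hε))).exists
  exact ⟨fm t, Fm t, hE t, ht', not_ergodic ht.1 ht.2⟩

end Pool.Agent.Results.MP_9eaa6a_an.NotStablyErgodic
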